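import Pool.Agent.W_c0q2_h38.Q2
import Pool.Agent.W_c0q2_h80.F1
import Pool.Agent.W_c0q2_h80.SG
import Pool.Agent.W_c0q2_h41.PLM
import Pool.Agent.W_c0q2_h41.TS
import Pool.Agent.W_c0q2_h3.SWT
import Pool.Agent.W_c0q2_h26.SMC
import Pool.Agent.W_c0q2_h2.SCL

/-!
# MP_c0ce05_co, Q2: everything together (only the range of many links is a hypothesis)
-/

set_option autoImplicit false

namespace C0cr

/-- the static theorem in the range of few links -/
theorem mi : C0q2.S_Mi :=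
  C0q2.Mi_of C0g.s_F1 (C0q2.S_PL_holds C0g.s_G) C0q2.S_TS_holds C0q2.S_WT_holds
    (C0q2.s_MC C0g.s_G) C0q2.s_CL

end C0cr
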