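import Pool.Agent.W_c0q2_h38.QD
import Pool.Agent.W_c0q2_h80.Sys

/-!
# The basic objects: all `q`-sets
-/

set_option autoImplicit false

namespace C0cr

open scoped Classical
open C0lo

variable {N : ℕ}

/-- all `q`-sets with the coefficient `2 ^ C(q,2) / (16 C(N,q))` -/
theorem basic (N q : ℕ) : C0q2.Sys N (1 / 16) (fun P => ∀ A : Finset (Fin N), A.card = q →
    Disjoint (ed A) P.K → (2 : ℝ) ^ (q.choose 2) ≤
      16 * (N.choose q : ℝ) * (2 ^ (ed A \ P.C).card * (4 / 3) ^ (lnk P A))) := by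
  by_cases hq : N.choose q = 0
  · refine ⟨Empty, inferInstance, fun _ => ∅, fun _ => 0, fun _ => le_rfl, ?_, ?_⟩
    · rw [Finset.univ_eq_empty, Finset.sum_empty]
      norm_num
    · intro P _ A hA _
      exfalso
      have h1 : A ∈ Finset.powersetCard q (Finset.univ : Finset (Fin N)) :=
        Finset.mem_powersetCard.2 ⟨Finset.subset_univ _, hA⟩
      have h2 : (Finset.powersetCard q (Finset.univ : Finset (Fin N))).card = 0 := by
        rw [Finset.card_powersetCard, Finset.card_univ, Fintype.card_fin, hq]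
      rw [Finset.card_eq_zero] at h2
      rw [h2] at h1
      exact absurd h1 (Finset.notMem_empty _)
  have hch : (0 : ℝ) < N.choose q := by
    have : 0 < N.choose q := Nat.pos_of_ne_zero hq
    exact_mod_cast this
  refine ⟨Finset (Fin N), inferInstance, ed,
    fun A => if A.card = q then 1 / 16 * (2 ^ (q.choose 2) / (N.choose q : ℝ)) else 0, ?_, ?_, ?_⟩
  · intro A
    show 0 ≤ if A.card = q then 1 / 16 * (2 ^ (q.choose 2) / (N.choose q : ℝ)) else 0
    split_ifs
    · positivity
    · exact le_rfl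
  · have h1 : ∀ A : Finset (Fin N), (if A.card = q then
        1 / 16 * (2 ^ (q.choose 2) / (N.choose q : ℝ)) else 0) * (1 / 2) ^ (ed A).card =
        if A.card = q then 1 / 16 * (1 / (N.choose q : ℝ)) else 0 := by
      intro A
      by_cases hA : A.card = q
      · rw [if_pos hA, if_pos hA, card_ed, hA]
        have h2 : (2 : ℝ) ^ (q.choose 2) * (1 / 2) ^ (q.choose 2) = 1 := by
          rw [← mul_pow]
          norm_num
        calc 1 / 16 * ((2 : ℝ) ^ (q.choose 2) / (N.choose q : ℝ)) * (1 / 2) ^ (q.choose 2)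
            = 1 / 16 * ((2 : ℝ) ^ (q.choose 2) * (1 / 2) ^ (q.choose 2) / (N.choose q : ℝ)) := by
              ring
          _ = _ := by rw [h2]
      · rw [if_neg hA, if_neg hA, zero_mul]
    rw [Finset.sum_congr rfl fun A _ => h1 A, ← Finset.sum_filter, Finset.sum_const,
      nsmul_eq_mul]
    have h3 : (Finset.univ.filter (fun A : Finset (Fin N) => A.card = q)).card = N.choose q := by
      have h4 : Finset.univ.filter (fun A : Finset (Fin N) => A.card = q) =
          Finset.powersetCard q (Finset.univ : Finset (Fin N)) := by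
        ext A
        rw [Finset.mem_filter, Finset.mem_powersetCard]
        exact ⟨fun h => ⟨Finset.subset_univ _, h.2⟩, fun h => ⟨Finset.mem_univ _, h.2⟩⟩
      rw [h4, Finset.card_powersetCard, Finset.card_univ, Fintype.card_fin]
    rw [h3]
    field_simp
    exact le_rfl
  · intro P hP A hA hal
    have h1 : (if A.card = q then 1 / 16 * ((2 : ℝ) ^ (q.choose 2) / (N.choose q : ℝ)) else 0) *
        P.mass (ed A) < 1 := by
      refine lt_of_le_of_lt ?_ hP
      exact Finset.single_le_sum (f := fun A : Finset (Fin N) => (if A.card = q then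
        1 / 16 * ((2 : ℝ) ^ (q.choose 2) / (N.choose q : ℝ)) else 0) * P.mass (ed A))
        (fun B _ => mul_nonneg (by split_ifs <;> positivity) (C0q2.mass_nonneg P _))
        (Finset.mem_univ A)
    rw [if_pos hA] at h1
    have h2 : P.mass (ed A) = (1 / 2) ^ (ed A \ P.C).card * (3 / 4) ^ (lnk P A) := by
      unfold C0st.GP.mass
      rw [if_pos hal]
      rfl
    rw [h2] at h1
    set u := (ed A \ P.C).card with hu
    set D := lnk P A with hD
    have h3 : ((1 : ℝ) / 2) ^ u * 2 ^ u = 1 := by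
      rw [← mul_pow]
      norm_num
    have h4 : ((3 : ℝ) / 4) ^ D * (4 / 3) ^ D = 1 := by
      rw [← mul_pow]
      norm_num
    have h5 : (0 : ℝ) < 2 ^ u * (4 / 3) ^ D := by positivity
    have h6 : 1 / 16 * ((2 : ℝ) ^ (q.choose 2) / (N.choose q : ℝ)) *
        ((1 / 2) ^ u * (3 / 4) ^ D) * (2 ^ u * (4 / 3) ^ D) < 1 * (2 ^ u * (4 / 3) ^ D) :=
      mul_lt_mul_of_pos_right h1 h5
    have h7 : 1 / 16 * ((2 : ℝ) ^ (q.choose 2) / (N.choose q : ℝ)) *
        ((1 / 2) ^ u * (3 / 4) ^ D) * (2 ^ u * (4 / 3) ^ D) =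
        (2 : ℝ) ^ (q.choose 2) / (16 * (N.choose q : ℝ)) := by
      calc 1 / 16 * ((2 : ℝ) ^ (q.choose 2) / (N.choose q : ℝ)) *
        ((1 / 2) ^ u * (3 / 4) ^ D) * (2 ^ u * (4 / 3) ^ D) =
          1 / 16 * ((2 : ℝ) ^ (q.choose 2) / (N.choose q : ℝ)) *
            (((1 / 2) ^ u * 2 ^ u) * ((3 / 4) ^ D * (4 / 3) ^ D)) := by ring
        _ = 1 / 16 * ((2 : ℝ) ^ (q.choose 2) / (N.choose q : ℝ)) := by rw [h3, h4]; ring
        _ = _ := by
          rw [div_mul_div_comm, one_mul]
    rw [h7, one_mul, div_lt_iff₀ (by positivity)] at h6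
    linarith

end C0cr
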