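import Pool.Agent.W_c0up_h38.Fin

/-!
# Numbers: `C(N,q)` against `2 ^ C(q,2)` for `q = ⌈2 L - 2 log₂ L + C₀⌉`
-/

set_option autoImplicit false

namespace C0cr

open scoped Classical

/-- the size of the clique -/
noncomputable def qq (C0 : ℝ) (N : ℕ) : ℕ :=
  ⌈2 * Real.logb 2 N - 2 * Real.logb 2 (Real.logb 2 N) + C0⌉₊

theorem logb_exp_one : Real.logb 2 (Real.exp 1) ≤ 14427 / 10000 := by
  unfold Real.logb
  rw [Real.log_exp, div_le_iff₀ (Real.log_pos (by norm_num))]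
  have := Real.log_two_gt_d9
  linarith

/-- `C(N,q) ≤ 2 ^ (q (L + 1.4427 - log₂ q))` -/
theorem choose_le {N q : ℕ} (hN : 1 ≤ N) (hq : 1 ≤ q) :
    (N.choose q : ℝ) ≤
      2 ^ ((q : ℝ) * (Real.logb 2 N + 14427 / 10000 - Real.logb 2 q)) := by
  have hN' : (0 : ℝ) < N := by exact_mod_cast hN
  have hq' : (0 : ℝ) < q := by exact_mod_cast hq
  have h1 : (N.choose q : ℝ) ≤ (N : ℝ) ^ q / (q.factorial : ℝ) := Nat.choose_le_pow_div q N
  have h2 : (q : ℝ) ^ q / (q.factorial : ℝ) ≤ Real.exp q :=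
    Real.pow_div_factorial_le_exp (q : ℝ) hq'.le q
  have hf : (0 : ℝ) < (q.factorial : ℝ) := by exact_mod_cast Nat.factorial_pos q
  have h3 : (N : ℝ) ^ q / (q.factorial : ℝ) ≤ ((N : ℝ) * Real.exp 1 / q) ^ q := by
    have h4 : ((N : ℝ) * Real.exp 1 / q) ^ q = (N : ℝ) ^ q / (q : ℝ) ^ q * Real.exp q := by
      rw [div_pow, mul_pow, ← Real.exp_nat_mul, mul_one]
      ring
    rw [h4]
    have h5 : (N : ℝ) ^ q / (q.factorial : ℝ) =
        (N : ℝ) ^ q / (q : ℝ) ^ q * ((q : ℝ) ^ q / (q.factorial : ℝ)) := by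
      field_simp
    rw [h5]
    exact mul_le_mul_of_nonneg_left h2 (by positivity)
  have h4 : (N : ℝ) * Real.exp 1 / q ≤
      2 ^ (Real.logb 2 N + 14427 / 10000 - Real.logb 2 q) := by
    rw [Real.rpow_sub (by norm_num), Real.rpow_add (by norm_num),
      Real.rpow_logb (by norm_num) (by norm_num) hN',
      Real.rpow_logb (by norm_num) (by norm_num) hq']
    have h5 : Real.exp 1 ≤ 2 ^ (14427 / 10000 : ℝ) := by
      calc Real.exp 1 = 2 ^ (Real.logb 2 (Real.exp 1)) :=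
            (Real.rpow_logb (by norm_num) (by norm_num) (Real.exp_pos 1)).symm
        _ ≤ _ := Real.rpow_le_rpow_of_exponent_le (by norm_num) logb_exp_one
    gcongr
  refine h1.trans (h3.trans ?_)
  rw [mul_comm (q : ℝ), Real.rpow_mul (by norm_num), Real.rpow_natCast]
  exact pow_le_pow_left₀ (by positivity) h4 q

/-- the size of `q` and of `C(N,q)` -/
theorem num {C0 : ℝ} (hC : 10 ≤ C0) : ∀ᶠ N : ℕ in Filter.atTop,
    2 ≤ N ∧ 3 ≤ qq C0 N ∧ 199 / 100 * Real.logb 2 N ≤ (qq C0 N : ℝ) ∧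
    (qq C0 N : ℝ) ≤ 2 * Real.logb 2 N + C0 + 1 ∧
    16 * (N.choose (qq C0 N) : ℝ) ≤
      2 ^ (((qq C0 N).choose 2 : ℝ) + 4 - (99 / 100 * C0 - 2) * Real.logb 2 N) := by
  filter_upwards [C0up.tendsto_L.eventually_ge_atTop 100,
    C0up.log_small (show (0 : ℝ) < 1 / 100 by norm_num),
    Filter.eventually_ge_atTop 2] with N hL hs hN
  set L : ℝ := Real.logb 2 N with hLdef
  set l : ℝ := Real.logb 2 L with hl
  have hl0 : 0 ≤ l := Real.logb_nonneg (by norm_num) (by linarith)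
  have hl1 : 2 * l ≤ 1 / 100 * L := by linarith
  set x : ℝ := 2 * L - 2 * l + C0 with hx
  have hxq : x ≤ (qq C0 N : ℝ) := Nat.le_ceil _
  have hx0 : 0 ≤ x := by linarith
  have hqx : (qq C0 N : ℝ) < x + 1 := Nat.ceil_lt_add_one hx0
  have hq199 : 199 / 100 * L ≤ (qq C0 N : ℝ) := by linarith
  have hq3 : 3 ≤ qq C0 N := by
    have : (3 : ℝ) ≤ (qq C0 N : ℝ) := by linarith
    exact_mod_cast this
  refine ⟨hN, hq3, hq199, by linarith, ?_⟩
  set q := qq C0 N with hq
  have hq0 : (0 : ℝ) < q := by linarith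
  have hlq : l + 992 / 1000 ≤ Real.logb 2 (q : ℝ) := by
    have h1 : l + 992 / 1000 ≤ Real.logb 2 (199 / 100 * L) := by
      rw [Real.logb_mul (by norm_num) (by linarith), add_comm]
      have h2 : (992 / 1000 : ℝ) ≤ Real.logb 2 (199 / 100) := by
        rw [Real.le_logb_iff_rpow_le (by norm_num) (by norm_num)]
        have h3 : ((2 : ℝ) ^ (992 / 1000 : ℝ)) ^ (125 : ℕ) ≤ (199 / 100 : ℝ) ^ (125 : ℕ) := by
          rw [← Real.rpow_natCast, ← Real.rpow_mul (by norm_num)]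
          have h4 : (992 / 1000 : ℝ) * ((125 : ℕ) : ℝ) = ((124 : ℕ) : ℝ) := by norm_num
          rw [h4, Real.rpow_natCast]
          norm_num
        exact le_of_pow_le_pow_left₀ (by norm_num) (by norm_num) h3
      linarith
    exact h1.trans (Real.logb_le_logb_of_le (by norm_num) (by linarith) hq199)
  have h1 := choose_le (N := N) (q := q) (by omega) (by omega)
  have h16 : (16 : ℝ) = 2 ^ (4 : ℝ) := by norm_num
  calc 16 * (N.choose q : ℝ) ≤
      2 ^ (4 : ℝ) * 2 ^ ((q : ℝ) * (L + 14427 / 10000 - Real.logb 2 q)) := by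
        rw [h16]
        exact mul_le_mul_of_nonneg_left h1 (by positivity)
    _ = 2 ^ (4 + (q : ℝ) * (L + 14427 / 10000 - Real.logb 2 q)) := by
        rw [Real.rpow_add (by norm_num)]
    _ ≤ _ := by
        refine Real.rpow_le_rpow_of_exponent_le (by norm_num) ?_
        rw [Nat.cast_choose_two]
        have h2 : C0 / 2 - 9507 / 10000 ≤
            ((q : ℝ) - 1) / 2 - L - 14427 / 10000 + Real.logb 2 q := by linarith
        have h3 : (q : ℝ) * (C0 / 2 - 9507 / 10000) ≤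
            (q : ℝ) * (((q : ℝ) - 1) / 2 - L - 14427 / 10000 + Real.logb 2 q) :=
          mul_le_mul_of_nonneg_left h2 hq0.le
        have h4 : 199 / 100 * L * (C0 / 2 - 9507 / 10000) ≤
            (q : ℝ) * (C0 / 2 - 9507 / 10000) :=
          mul_le_mul_of_nonneg_right hq199 (by linarith)
        have h5 : (99 / 100 * C0 - 2) * L ≤ 199 / 100 * L * (C0 / 2 - 9507 / 10000) := by
          nlinarith
        linarith

end C0cr
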