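import Pool.Agent.W_c0q2_h38.WM
import Pool.Agent.W_c0q2_h38.WV
import Pool.Agent.W_c0q2_h38.Bas
import Pool.Agent.W_c0q2_h38.Num
import Pool.Agent.W_c0l1_h38.Win

/-!
# MP_c0ce05_co, Q2 (proofs row 518), section 0: from the static theorem to both numbers
-/

set_option autoImplicit false

namespace C0cr

open scoped Classical
open C0lo

variable {N : ℕ}

/-- the alive `q`-sets with exactly `u` unclaimed edges and `D` links -/
noncomputable def Fam (P : C0st.GP N) (q D u : ℕ) : Finset (Finset (Fin N)) :=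
  Finset.univ.filter (fun A => A.card = q ∧ Disjoint (ed A) P.K ∧ (ed A \ P.C).card = u ∧
    lnk P A = D)

/-- the static theorem (ST) of row 518 -/
def StaticQ : Prop :=
  ∃ C2 C0 : ℝ, 100000 ≤ C2 ∧ C2 + 10 ≤ C0 ∧ ∀ᶠ N : ℕ in Filter.atTop,
    C0q2.Sys N (1 / 8) (fun P => ∀ Dl : ℕ, (Dl : ℝ) ≤ 10 * (Real.logb 2 N) ^ 2 → P.Valid Dl →
      ∀ D u : ℕ, 2 * C2 * Real.logb 2 N ≤ D → (u : ℝ) ≤ 1 / 400 * D →
        ((Fam P (qq C0 N) D u).card : ℝ) ≤ 2 ^ (575 / 1000 * (1 / 400) * (D : ℝ)))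

/-- the entry rule -/
def Rul (C2 L : ℝ) (u D : ℕ) : Prop := 2 * C2 * L ≤ D ∧ (u : ℝ) ≤ 1 / 400 * D

theorem Rul_mon (C2 L : ℝ) : Mon (Rul C2 L) := by
  rintro u u' D D' h1 h2 ⟨h3, h4⟩
  have h1' : (u' : ℝ) ≤ u := by exact_mod_cast h1
  have h2' : (D : ℝ) ≤ D' := by exact_mod_cast h2
  exact ⟨by linarith, by linarith⟩

theorem four_third_pow (D : ℕ) : ((4 : ℝ) / 3) ^ D ≤ 2 ^ (416 / 1000 * (D : ℝ)) := by
  have h1 := C0up.two_third_pow D
  have h2 : ((4 : ℝ) / 3) ^ D = (4 / 3) ^ D * (1 / 2) ^ D * 2 ^ D := by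
    rw [mul_assoc, ← mul_pow]
    norm_num
  rw [h2]
  calc ((4 : ℝ) / 3) ^ D * (1 / 2) ^ D * 2 ^ D ≤ 2 ^ (-(73 / 125 * (D : ℝ))) * 2 ^ D :=
        mul_le_mul_of_nonneg_right h1 (by positivity)
    _ = 2 ^ (-(73 / 125 * (D : ℝ)) + D) := by
        rw [Real.rpow_add (by norm_num), Real.rpow_natCast]
    _ = _ := by
        congr 1
        ring

/-- the basic inequality from the basic objects -/
theorem basic_ineq {q u D : ℕ} {C0 L : ℝ}
    (h1 : (2 : ℝ) ^ (q.choose 2) ≤ 16 * (N.choose q : ℝ) * (2 ^ u * (4 / 3) ^ D))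
    (h2 : 16 * (N.choose q : ℝ) ≤ 2 ^ ((q.choose 2 : ℝ) + 4 - (99 / 100 * C0 - 2) * L)) :
    (99 / 100 * C0 - 2) * L ≤ 4 + u + 416 / 1000 * D := by
  have h3 : (2 : ℝ) ^ (q.choose 2) ≤ 2 ^ ((q.choose 2 : ℝ) + 4 - (99 / 100 * C0 - 2) * L) *
      (2 ^ (u : ℝ) * 2 ^ (416 / 1000 * (D : ℝ))) := by
    refine h1.trans (mul_le_mul h2 ?_ (by positivity) (by positivity))
    rw [Real.rpow_natCast]
    exact mul_le_mul_of_nonneg_left (four_third_pow D) (by positivity)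
  rw [← Real.rpow_add (by norm_num), ← Real.rpow_add (by norm_num),
    ← Real.rpow_natCast 2 (q.choose 2),
    Real.rpow_le_rpow_left_iff (by norm_num)] at h3
  linarith

/-- few links -/
theorem lnk_le {P : C0st.GP N} {Dl : ℕ} (hP : P.Valid Dl) (A : Finset (Fin N)) :
    lnk P A ≤ (A.card).choose 2 := by
  rw [← card_ed]
  unfold lnk
  refine Finset.card_le_card_of_injOn (fun d => d.1) ?_ ?_
  · intro d hd
    exact (Finset.mem_filter.1 (Finset.mem_coe.1 hd)).2.1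
  · intro d hd d' hd' h
    exact hP.fn d (Finset.mem_filter.1 (Finset.mem_coe.1 hd)).1 d'
      (Finset.mem_filter.1 (Finset.mem_coe.1 hd')).1 h

/-- the entering mass -/
theorem fmass_le {P : C0st.GP N} {Dl q : ℕ} {C2 L : ℝ} (hP : P.Valid Dl) (hL : 100 ≤ L)
    (hC2 : 100000 ≤ C2)
    (hbas : ∀ A : Finset (Fin N), A.card = q → Disjoint (ed A) P.K →
      (99 / 100 * C2 + 7) * L ≤ 4 + (ed A \ P.C).card + 416 / 1000 * lnk P A)
    (hST : ∀ D u : ℕ, 2 * C2 * L ≤ D → (u : ℝ) ≤ 1 / 400 * D →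
        ((Fam P q D u).card : ℝ) ≤ 2 ^ (575 / 1000 * (1 / 400) * (D : ℝ))) :
    fmass P q (Rul C2 L) ≤ ((q.choose 2 : ℝ) + 1) ^ 2 * 2 ^ (2 - 9 / 2 * L) := by
  set M := q.choose 2 with hM
  have hfr : ∀ A ∈ fresh P q (Rul C2 L), A ∈ Fam P q (lnk P A) (ed A \ P.C).card ∧
      2 * C2 * L ≤ lnk P A ∧ ((ed A \ P.C).card : ℝ) ≤ 1 / 400 * lnk P A ∧
      1 / 400 * (lnk P A : ℝ) - 201 / 100 ≤ (ed A \ P.C).card ∧ lnk P A ≤ M ∧
      (ed A \ P.C).card ≤ M := by
    intro A hA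
    unfold fresh at hA
    rw [Finset.mem_filter] at hA
    obtain ⟨_, h1, h2, ⟨h3, h4⟩, h5⟩ := hA
    have h6 := hbas A h1 h2
    have hCL : 10000000 ≤ C2 * L := by nlinarith
    have hD2 : 2 ≤ lnk P A := by
      have : (2 : ℝ) ≤ lnk P A := by linarith
      exact_mod_cast this
    refine ⟨?_, h3, h4, ?_, ?_, ?_⟩
    · unfold Fam
      rw [Finset.mem_filter]
      exact ⟨Finset.mem_univ _, h1, h2, rfl, rfl⟩
    · by_contra hcon
      rw [not_le] at hcon
      refine h5 ⟨?_, ?_⟩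
      · rw [Nat.cast_sub hD2]
        push_cast
        by_contra hc2
        rw [not_le] at hc2
        nlinarith
      · rw [Nat.cast_sub hD2]
        push_cast
        linarith
    · rw [hM, ← h1]
      exact lnk_le hP A
    · rw [hM, ← h1, ← card_ed]
      exact Finset.card_le_card Finset.sdiff_subset
  -- sum over the pairs
  have hmap : ∀ A ∈ fresh P q (Rul C2 L), (lnk P A, (ed A \ P.C).card) ∈
      Finset.range (M + 1) ×ˢ Finset.range (M + 1) := by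
    intro A hA
    obtain ⟨_, _, _, _, h5, h6⟩ := hfr A hA
    rw [Finset.mem_product, Finset.mem_range, Finset.mem_range]
    exact ⟨by omega, by omega⟩
  unfold fmass
  rw [← Finset.sum_fiberwise_of_maps_to hmap]
  have hone : ∀ y ∈ Finset.range (M + 1) ×ˢ Finset.range (M + 1),
      ∑ A ∈ fresh P q (Rul C2 L) with (lnk P A, (ed A \ P.C).card) = y,
        ((4 : ℝ) / 3) ^ (ed A \ P.C).card * (1 / 2) ^ (ed A \ P.C).card ≤
        2 ^ (2 - 9 / 2 * L) := by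
    rintro ⟨D, u⟩ _
    by_cases hne : ((fresh P q (Rul C2 L)).filter
        (fun A => (lnk P A, (ed A \ P.C).card) = (D, u))).Nonempty
    · obtain ⟨A0, hA0⟩ := hne
      rw [Finset.mem_filter] at hA0
      obtain ⟨hA0, hA0e⟩ := hA0
      rw [Prod.mk.injEq] at hA0e
      obtain ⟨_, h2, h3, h4, _, _⟩ := hfr A0 hA0
      rw [hA0e.1] at h2 h3 h4
      rw [hA0e.2] at h3 h4
      have h5 := hST D u h2 h3
      have h6 : ∀ A ∈ (fresh P q (Rul C2 L)).filter
          (fun A => (lnk P A, (ed A \ P.C).card) = (D, u)),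
          ((4 : ℝ) / 3) ^ (ed A \ P.C).card * (1 / 2) ^ (ed A \ P.C).card ≤
            2 ^ (-(73 / 125 * (u : ℝ))) := by
        intro A hA
        rw [Finset.mem_filter, Prod.mk.injEq] at hA
        rw [hA.2.2]
        exact C0up.two_third_pow u
      refine (Finset.sum_le_sum h6).trans ?_
      rw [Finset.sum_const, nsmul_eq_mul]
      have h7 : (((fresh P q (Rul C2 L)).filter
          (fun A => (lnk P A, (ed A \ P.C).card) = (D, u))).card : ℝ) ≤
          2 ^ (575 / 1000 * (1 / 400) * (D : ℝ)) := by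
        refine le_trans ?_ h5
        have h8 : (fresh P q (Rul C2 L)).filter
            (fun A => (lnk P A, (ed A \ P.C).card) = (D, u)) ⊆ Fam P q D u := by
          intro A hA
          rw [Finset.mem_filter, Prod.mk.injEq] at hA
          have h9 := (hfr A hA.1).1
          rwa [hA.2.1, hA.2.2] at h9
        exact_mod_cast Finset.card_le_card h8
      calc _ ≤ (2 : ℝ) ^ (575 / 1000 * (1 / 400) * (D : ℝ)) * 2 ^ (-(73 / 125 * (u : ℝ))) :=
            mul_le_mul_of_nonneg_right h7 (by positivity)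
        _ = 2 ^ (575 / 1000 * (1 / 400) * (D : ℝ) + -(73 / 125 * (u : ℝ))) := by
            rw [Real.rpow_add (by norm_num)]
        _ ≤ _ := by
            refine Real.rpow_le_rpow_of_exponent_le (by norm_num) ?_
            nlinarith
    · rw [Finset.not_nonempty_iff_eq_empty] at hne
      rw [hne, Finset.sum_empty]
      positivity
  refine (Finset.sum_le_sum hone).trans ?_
  rw [Finset.sum_const, nsmul_eq_mul, Finset.card_product, Finset.card_range]
  push_cast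
  rw [← pow_two]

/-- `L ^ 4` is small against `2 ^ L` -/
theorem pow4_le {L : ℝ} (hL : 0 ≤ L) : (17 / 100 * L) ^ 4 ≤ (2 : ℝ) ^ L := by
  have h1 : 17 / 100 * L ≤ (2 : ℝ) ^ (L / 4) := by
    rw [Real.rpow_def_of_pos (by norm_num)]
    have h2 := Real.add_one_le_exp (Real.log 2 * (L / 4))
    have h3 := Real.log_two_gt_d9
    nlinarith
  calc (17 / 100 * L) ^ 4 ≤ ((2 : ℝ) ^ (L / 4)) ^ 4 := pow_le_pow_left₀ (by positivity) h1 4
    _ = 2 ^ L := by
      rw [← Real.rpow_natCast, ← Real.rpow_mul (by norm_num)]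
      congr 1
      push_cast
      ring

/-- the entering mass is small against `N ^ (-2)` -/
theorem small {C0 L : ℝ} {q : ℕ} (hL : 100 + C0 ≤ L) (hC0 : 0 ≤ C0) (hq : (q : ℝ) ≤ 2 * L + C0 + 1)
    {x : ℝ} (hx : x = 2 ^ L) :
    x ^ 2 * (8 * (((q.choose 2 : ℝ) + 1) ^ 2 * 2 ^ (2 - 9 / 2 * L))) < 1 / 4 := by
  have hL0 : 100 ≤ L := by linarith
  have h1 : ((q.choose 2 : ℝ) + 1) ≤ 6 * L ^ 2 := by
    rw [Nat.cast_choose_two]
    have hq3 : (q : ℝ) ≤ 3 * L := by linarith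
    have hq0 : (0 : ℝ) ≤ q := Nat.cast_nonneg q
    nlinarith
  have h2 : ((q.choose 2 : ℝ) + 1) ^ 2 ≤ 36 * L ^ 4 := by
    have h3 : (0 : ℝ) ≤ (q.choose 2 : ℝ) + 1 := by positivity
    calc ((q.choose 2 : ℝ) + 1) ^ 2 ≤ (6 * L ^ 2) ^ 2 := pow_le_pow_left₀ h3 h1 2
      _ = _ := by ring
  have h4 := pow4_le (show 0 ≤ L by linarith)
  have h5 : L ^ 4 ≤ 1200 * 2 ^ L := by
    have h6 : (17 / 100 * L) ^ 4 = 83521 / 100000000 * L ^ 4 := by ring
    rw [h6] at h4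
    have h7 : 0 ≤ L ^ 4 := by positivity
    linarith
  have h7 : x ^ 2 = 2 ^ (2 * L) := by
    rw [hx, ← Real.rpow_natCast, ← Real.rpow_mul (by norm_num)]
    congr 1
    push_cast
    ring
  have h8 : ((q.choose 2 : ℝ) + 1) ^ 2 ≤ 2 ^ (16 : ℝ) * 2 ^ L := by
    have h9 : (2 : ℝ) ^ (16 : ℝ) = 65536 := by norm_num
    have h10 : (0 : ℝ) < 2 ^ L := by positivity
    rw [h9]
    linarith
  calc x ^ 2 * (8 * (((q.choose 2 : ℝ) + 1) ^ 2 * 2 ^ (2 - 9 / 2 * L)))
      ≤ 2 ^ (2 * L) * (2 ^ (3 : ℝ) * ((2 ^ (16 : ℝ) * 2 ^ L) * 2 ^ (2 - 9 / 2 * L))) := by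
        rw [h7, show (2 : ℝ) ^ (3 : ℝ) = 8 by norm_num]
        gcongr
    _ = 2 ^ (2 * L + (3 + ((16 + L) + (2 - 9 / 2 * L)))) := by
        rw [Real.rpow_add (by norm_num), Real.rpow_add (by norm_num) 3,
          Real.rpow_add (by norm_num) (16 + L), Real.rpow_add (by norm_num) 16]
    _ < 2 ^ (-2 : ℝ) := by
        refine Real.rpow_lt_rpow_of_exponent_lt (by norm_num) ?_
        linarith
    _ = 1 / 4 := by
        rw [Real.rpow_neg (by norm_num)]
        norm_num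

/-- both numbers are at most `2 log₂ N - 2 log₂ log₂ N + C` -/
theorem upper_of_staticQ (hS : StaticQ) : ∃ C : ℝ, ∀ᶠ N : ℕ in Filter.atTop,
    (C0ce.achievement N : ℝ) ≤ 2 * Real.logb 2 N - 2 * Real.logb 2 (Real.logb 2 N) + C ∧
    (C0ce.avoidance N : ℝ) ≤ 2 * Real.logb 2 N - 2 * Real.logb 2 (Real.logb 2 N) + C := by
  obtain ⟨C2, C0, hC2b, hC0, hS⟩ := hS
  refine ⟨C0, ?_⟩
  filter_upwards [hS, num (C0 := C0) (by linarith),
    C0up.tendsto_L.eventually_ge_atTop (100 + C0),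
    C0up.conds (η := 1 / 200) (by norm_num) le_rfl] with N h1 h2 hL hc
  obtain ⟨n1, n2, n3, n4, n5⟩ := h2
  obtain ⟨_, _, _, _, c5, c6, _⟩ := hc
  set L : ℝ := Real.logb 2 N with hLdef
  have hL0 : 100 ≤ L := by linarith
  obtain ⟨ι, _, Z, a, ha, hmass, hst⟩ := h1.and (basic N (qq C0 N))
  have hN0 : (0 : ℝ) < N := by exact_mod_cast (show 0 < N by omega)
  have hNL : (N : ℝ) = 2 ^ L := (Real.rpow_logb (by norm_num) (by norm_num) hN0).symm
  have key : ∀ P : C0st.GP N, P.Valid (⌈4 * L⌉₊ + 5) → ∑ i, a i * P.mass (Z i) < 1 →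
      fmass P (qq C0 N) (Rul C2 L) ≤
        (((qq C0 N).choose 2 : ℝ) + 1) ^ 2 * 2 ^ (2 - 9 / 2 * L) ∧
      ∀ A : Finset (Fin N), A.card = qq C0 N → Disjoint (ed A) P.K →
        (ed A \ P.C).card ≤ 2 → Rul C2 L (ed A \ P.C).card (lnk P A) := by
    intro P hP hm
    obtain ⟨s1, s2⟩ := hst P hm
    have hbas : ∀ A : Finset (Fin N), A.card = qq C0 N → Disjoint (ed A) P.K →
        (99 / 100 * C2 + 7) * L ≤ 4 + (ed A \ P.C).card + 416 / 1000 * lnk P A := by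
      intro A hA hal
      have h3 := basic_ineq (s2 A hA hal) n5
      refine le_trans ?_ h3
      refine mul_le_mul_of_nonneg_right ?_ (by linarith)
      linarith
    refine ⟨fmass_le hP hL0 hC2b hbas ?_, ?_⟩
    · intro D u hD hu
      exact s1 _ c5 hP D u hD hu
    · intro A hA hal hu
      have h3 := hbas A hA hal
      have hu' : ((ed A \ P.C).card : ℝ) ≤ 2 := by exact_mod_cast hu
      have hCL : 10000000 ≤ C2 * L := by nlinarith
      have h4 : 2 * C2 * L ≤ lnk P A := by nlinarith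
      exact ⟨h4, by linarith⟩
  have hQ0 : ¬ Rul C2 L ((qq C0 N).choose 2) 0 := by
    rintro ⟨h3, _⟩
    push_cast at h3
    have hCL : 10000000 ≤ C2 * L := by nlinarith
    linarith
  have hB0 : (0 : ℝ) ≤ (((qq C0 N).choose 2 : ℝ) + 1) ^ 2 * 2 ^ (2 - 9 / 2 * L) := by positivity
  have hBN := small (q := qq C0 N) hL (by linarith) n4 hNL
  have hmass' : ∑ i, a i * (1 / 2) ^ (Z i).card ≤ 1 / 4 := hmass.trans (by norm_num)
  have fin : ∀ m : ℕ, m < qq C0 N → (m : ℝ) ≤ 2 * L - 2 * Real.logb 2 L + C0 :=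
    fun m hm => (Nat.lt_ceil.1 hm).le
  refine ⟨fin _ (achievement_lt ha hmass' hB0 ?_ (Rul_mon C2 L) c6 key n1 n2 hQ0),
    fin _ (avoidance_lt ha hmass' hB0 hBN (Rul_mon C2 L) c6 key n1 (by omega) hQ0)⟩
  refine lt_of_le_of_lt ?_ hBN
  refine mul_le_mul_of_nonneg_left ?_ (by positivity)
  linarith

/-- **Q2**, from the static theorem: both numbers are `2 log₂ N - 2 log₂ log₂ N + O(1)`, and their
difference is bounded for all `N`. -/
theorem bounded_of_staticQ (hS : StaticQ) : ∃ C : ℝ, (∀ N : ℕ,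
    |(C0ce.achievement N : ℝ) - (C0ce.avoidance N : ℝ)| ≤ C) ∧
    ∃ N₀ : ℕ, ∀ N : ℕ, N₀ ≤ N →
      |(C0ce.achievement N : ℝ) -
        (2 * Real.logb 2 N - 2 * Real.logb 2 (Real.logb 2 N))| ≤ C ∧
      |(C0ce.avoidance N : ℝ) -
        (2 * Real.logb 2 N - 2 * Real.logb 2 (Real.logb 2 N))| ≤ C := by
  obtain ⟨C, hC⟩ := upper_of_staticQ hS
  obtain ⟨N1, hN1⟩ := Filter.eventually_atTop.1 hC
  obtain ⟨N2, hN2⟩ := C0l1.lower
  set N0 := max N1 N2 with hN0
  have hbig : ∀ N : ℕ, N0 ≤ N →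
      |(C0ce.achievement N : ℝ) -
        (2 * Real.logb 2 N - 2 * Real.logb 2 (Real.logb 2 N))| ≤ max C 49 ∧
      |(C0ce.avoidance N : ℝ) -
        (2 * Real.logb 2 N - 2 * Real.logb 2 (Real.logb 2 N))| ≤ max C 49 := by
    intro N hN
    obtain ⟨a1, a2⟩ := hN1 N (le_trans (le_max_left _ _) hN)
    obtain ⟨b1, b2⟩ := hN2 N (le_trans (le_max_right _ _) hN)
    have m1 := le_max_left C 49
    have m2 := le_max_right C 49
    exact ⟨abs_le.2 ⟨by linarith, by linarith⟩, abs_le.2 ⟨by linarith, by linarith⟩⟩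
  obtain ⟨C', hC'⟩ := ((Finset.range N0).image (fun N : ℕ =>
    |(C0ce.achievement N : ℝ) - (C0ce.avoidance N : ℝ)|)).exists_le
  refine ⟨max (2 * max C 49) C', ?_, N0, ?_⟩
  · intro N
    by_cases hN : N0 ≤ N
    · obtain ⟨h1, h2⟩ := hbig N hN
      refine le_trans ?_ (le_max_left _ _)
      rw [abs_le] at h1 h2 ⊢
      exact ⟨by linarith [h1.1, h2.2], by linarith [h1.2, h2.1]⟩
    · refine le_trans ?_ (le_max_right _ _)
      exact hC' _ (Finset.mem_image_of_mem _ (Finset.mem_range.2 (by omega)))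
  · intro N hN
    obtain ⟨h1, h2⟩ := hbig N hN
    have m0 : (0 : ℝ) ≤ max C 49 := le_trans (by norm_num) (le_max_right C 49)
    have m1 : max C 49 ≤ max (2 * max C 49) C' :=
      le_trans (by linarith) (le_max_left _ _)
    exact ⟨h1.trans m1, h2.trans m1⟩

end C0cr
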