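import Pool.Agent.W_c0q2_h38.SV

/-!
# Coefficients along a play of Avoider, with an entry rule
-/

set_option autoImplicit false
set_option linter.unusedSectionVars false

namespace C0cr

open scoped Classical
open C0lo C0up

variable {N : ℕ} {ι : Type} [Fintype ι] {Z : ι → Finset (Sym2 (Fin N))} {a : ι → ℝ} {q : ℕ}
  {Q : ℕ → ℕ → Prop} {b τ : ℝ} {s : St N (ι ⊕ Finset (Fin N))}

/-- the links after a claim -/
theorem claim_D (hs : Inv τ s) {g g' : Sym2 (Fin N)} (hg : g ∈ s.free)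
    (t : Bool) (d : ℝ) : (s.claim (ZZ Z) g g' t d).pos.D = insert (g, g') s.pos.D := by
  have hpn : ∀ f, s.p g ≠ some f := fun f hf =>
    (St.mem_free.1 hg).2.1 (hs.pC g f hf).1
  ext x
  rw [St.mem_D, Finset.mem_insert, St.mem_D]
  show Function.update s.p g (some g') x.1 = some x.2 ↔ _
  by_cases hx : x.1 = g
  · rw [hx, Function.update_self]
    constructor
    · intro h1
      exact Or.inl (Prod.ext hx (Option.some.inj h1).symm)
    · rintro (h1 | h1)
      · rw [h1]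
      · exact absurd h1 (hpn _)
  · rw [Function.update_of_ne hx]
    constructor
    · intro h1
      exact Or.inr h1
    · rintro (h1 | h1)
      · exact absurd (congrArg Prod.fst h1) hx
      · exact h1

theorem claim_dbl (hs : Inv τ s) {g g' : Sym2 (Fin N)} (hg : g ∈ s.free)
    (t : Bool) (d : ℝ) (X : Finset (Sym2 (Fin N))) :
    (s.claim (ZZ Z) g g' t d).pos.dbl X ≤ s.pos.dbl X + 1 := by
  unfold GPos.dbl
  rw [claim_D hs hg, Finset.filter_insert]
  split_ifs
  · exact Finset.card_insert_le _ _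
  · omega

theorem act_dbl [NeZero N] (hs : Inv τ s) (hf : 2 ≤ s.free.card) (X : Finset (Sym2 (Fin N))) :
    (act (ZZ Z) τ s).pos.dbl X ≤ s.pos.dbl X + 1 := by
  obtain ⟨g, g', t, d, h1, h2, h3, h4⟩ := act_eq (Z := ZZ Z) (τ := τ) hf
  rw [h1]
  exact claim_dbl hs h2 t d X

/-- the coefficients of the late objects; `P0` = position at the last entering time -/
def Lok (q : ℕ) (Q : ℕ → ℕ → Prop) (b : ℝ) (P0 : GPos N)
    (s : St N (ι ⊕ Finset (Fin N))) : Prop :=
  ∀ A : Finset (Fin N), A.card = q → Q (ed A \ P0.C).card (P0.dbl (ed A)) →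
    b * (4 / 3) ^ (ed A \ s.C).card ≤ s.c (Sum.inr A)

theorem Lok.claim {P0 : GPos N} (hc : Lok q Q b P0 s) (hb : 0 ≤ b) {g g' : Sym2 (Fin N)}
    (hg : g ∈ s.free) (t : Bool) (d : ℝ) : Lok q Q b P0 (s.claim (ZZ Z) g g' t d) := by
  intro A hA hA0
  have hd2 := hc A hA hA0
  have hgC := (St.mem_free.1 hg).2.1
  have hsub : ed A \ insert g s.C ⊆ ed A \ s.C :=
    Finset.sdiff_subset_sdiff le_rfl (Finset.subset_insert _ _)
  show b * (4 / 3) ^ (ed A \ insert g s.C).card ≤ disc (ZZ Z) s.c g g' (Sum.inr A)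
  unfold disc
  show _ ≤ if g ∈ ed A ∧ g' ∈ ed A then _ else _
  by_cases hgg : g ∈ ed A ∧ g' ∈ ed A
  · rw [if_pos hgg]
    have h1 : (ed A \ insert g s.C).card < (ed A \ s.C).card := by
      refine Finset.card_lt_card (Finset.ssubset_iff_subset_ne.2 ⟨hsub, ?_⟩)
      intro h2
      have h3 : g ∈ ed A \ s.C := Finset.mem_sdiff.2 ⟨hgg.1, hgC⟩
      rw [← h2] at h3
      exact (Finset.mem_sdiff.1 h3).2 (Finset.mem_insert_self _ _)
    have h6 : ((4 : ℝ) / 3) ^ ((ed A \ insert g s.C).card + 1) ≤ (4 / 3) ^ (ed A \ s.C).card :=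
      pow_le_pow_right₀ (by norm_num) (by omega)
    rw [pow_succ] at h6
    have h7 := mul_le_mul_of_nonneg_left h6 hb
    linarith
  · rw [if_neg hgg]
    refine le_trans ?_ hd2
    exact mul_le_mul_of_nonneg_left
      (pow_le_pow_right₀ (by norm_num) (Finset.card_le_card hsub)) hb

theorem Lok.act [NeZero N] {P0 : GPos N} (hc : Lok q Q b P0 s) (hb : 0 ≤ b)
    (hf : 2 ≤ s.free.card) : Lok q Q b P0 (act (ZZ Z) τ s) := by
  obtain ⟨g, g', t, d, h1, h2, h3, h4⟩ := act_eq (Z := ZZ Z) (τ := τ) hf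
  rw [h1]
  exact hc.claim hb h2 t d

theorem Lok.enter {P0 : GPos N} (hc : Lok q Q b P0 s)
    (hn : Nn s) : Lok q Q b s.pos (enter q Q b P0 s) := by
  intro A hA hA0
  show b * (4 / 3) ^ (ed A \ s.C).card ≤ s.c (Sum.inr A) +
    (if A.card = q ∧ Q (ed A \ s.C).card (s.pos.dbl (ed A)) ∧
      ¬ Q (ed A \ P0.C).card (P0.dbl (ed A)) then b * (4 / 3) ^ (ed A \ s.C).card else 0)
  by_cases h1 : Q (ed A \ P0.C).card (P0.dbl (ed A))
  · rw [if_neg (fun h => h.2.2 h1), add_zero]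
    exact hc A hA h1
  · rw [if_pos ⟨hA, hA0, h1⟩]
    have := hn (Sum.inr A)
    linarith

theorem cst_enter (hc : Cst Z a s) (P0 : GPos N) :
    Cst Z a (enter q Q b P0 s) := by
  intro i
  show s.c (Sum.inl i) + 0 = _
  rw [add_zero]
  exact hc i

theorem inv_enter (hs : Inv τ s) (hb : 0 ≤ b) (P0 : GPos N) :
    Inv τ (C0cr.enter q Q b P0 s) := by
  refine ⟨?_, hs.bank0, hs.bankl, hs.tib, hs.trs, hs.trb, hs.ind, hs.pC, hs.acy, hs.ndC,
    hs.ndK, hs.CK⟩
  intro j
  have h1 := hs.nn j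
  rcases j with i | A
  · show 0 ≤ s.c (Sum.inl i) + 0
    linarith
  · show 0 ≤ s.c (Sum.inr A) + (if A.card = q ∧ Q (ed A \ s.C).card (s.pos.dbl (ed A)) ∧
      ¬ Q (ed A \ P0.C).card (P0.dbl (ed A)) then b * (4 / 3) ^ (ed A \ s.C).card else 0)
    have h2 : 0 ≤ b * (4 / 3) ^ (ed A \ s.C).card := by positivity
    split_ifs <;> linarith

/-- the position of a state as a general position -/
noncomputable def sgp (s : St N (ι ⊕ Finset (Fin N))) : C0st.GP N := ⟨s.pos.C, s.pos.K, s.pos.D⟩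

/-- the entering mass -/
theorem Xi_enter (hb : 0 ≤ b) (hQ : Mon Q) {P0 : GPos N}
    (hC : ∀ A : Finset (Fin N), (ed A \ P0.C).card ≤ (ed A \ s.C).card + 2)
    (hD : ∀ A : Finset (Fin N), s.pos.dbl (ed A) ≤ P0.dbl (ed A) + 2) :
    Xi (ZZ Z) (enter q Q b P0 s) ≤ Xi (ZZ Z) s + b * fmass (sgp s) q Q := by
  have h1 : Xi (ZZ Z) (enter q Q b P0 s) = Xi (ZZ Z) s +
      tot (ZZ Z) (Sum.elim (fun _ : ι => (0 : ℝ)) (fun A : Finset (Fin N) =>
        if A.card = q ∧ Q (ed A \ s.C).card (s.pos.dbl (ed A)) ∧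
          ¬ Q (ed A \ P0.C).card (P0.dbl (ed A)) then b * (4 / 3) ^ (ed A \ s.C).card
        else 0)) s.C s.K := by
    unfold Xi Ph
    have h2 : tot (ZZ Z) (enter q Q b P0 s).c (enter q Q b P0 s).C (enter q Q b P0 s).K =
        tot (ZZ Z) s.c s.C s.K + tot (ZZ Z) (Sum.elim (fun _ : ι => (0 : ℝ))
        (fun A : Finset (Fin N) =>
        if A.card = q ∧ Q (ed A \ s.C).card (s.pos.dbl (ed A)) ∧
          ¬ Q (ed A \ P0.C).card (P0.dbl (ed A)) then b * (4 / 3) ^ (ed A \ s.C).card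
        else 0)) s.C s.K := tot_add
    have h3 : ∑ g ∈ (enter q Q b P0 s).free, (enter q Q b P0 s).bank g =
        ∑ g ∈ s.free, s.bank g := rfl
    rw [h2, h3]
    ring
  rw [h1]
  have h5 : tot (ZZ Z) (Sum.elim (fun _ : ι => (0 : ℝ)) (fun A : Finset (Fin N) =>
        if A.card = q ∧ Q (ed A \ s.C).card (s.pos.dbl (ed A)) ∧
          ¬ Q (ed A \ P0.C).card (P0.dbl (ed A)) then b * (4 / 3) ^ (ed A \ s.C).card
        else 0)) s.C s.K ≤ b * fmass (sgp s) q Q := by
    unfold tot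
    rw [Fintype.sum_sum_type]
    have h6 : ∑ i : ι, (Sum.elim (fun _ : ι => (0 : ℝ)) (fun A : Finset (Fin N) =>
        if A.card = q ∧ Q (ed A \ s.C).card (s.pos.dbl (ed A)) ∧
          ¬ Q (ed A \ P0.C).card (P0.dbl (ed A)) then b * (4 / 3) ^ (ed A \ s.C).card
        else 0)) (Sum.inl i) *
        w 2 s.C s.K (ZZ Z (Sum.inl i)) = 0 :=
      Finset.sum_eq_zero fun i _ => by
        show (0 : ℝ) * _ = 0
        rw [zero_mul]
    rw [h6, zero_add]
    have h7 : ∀ A : Finset (Fin N), (Sum.elim (fun _ : ι => (0 : ℝ))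
        (fun A : Finset (Fin N) =>
        if A.card = q ∧ Q (ed A \ s.C).card (s.pos.dbl (ed A)) ∧
          ¬ Q (ed A \ P0.C).card (P0.dbl (ed A)) then b * (4 / 3) ^ (ed A \ s.C).card
        else 0)) (Sum.inr A) *
        w 2 s.C s.K (ZZ Z (Sum.inr A)) ≤
        if A ∈ fresh (sgp s) q Q then
          b * (((4 : ℝ) / 3) ^ (ed A \ (sgp s).C).card * (1 / 2) ^ (ed A \ (sgp s).C).card)
        else 0 := by
      intro A
      show (if A.card = q ∧ Q (ed A \ s.C).card (s.pos.dbl (ed A)) ∧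
          ¬ Q (ed A \ P0.C).card (P0.dbl (ed A)) then b * (4 / 3) ^ (ed A \ s.C).card
        else 0) * w 2 s.C s.K (ed A) ≤ _
      have hpos : (0 : ℝ) ≤ if A ∈ fresh (sgp s) q Q then
          b * (((4 : ℝ) / 3) ^ (ed A \ (sgp s).C).card * (1 / 2) ^ (ed A \ (sgp s).C).card)
        else 0 := by
        split_ifs
        · positivity
        · exact le_rfl
      by_cases h8 : A.card = q ∧ Q (ed A \ s.C).card (s.pos.dbl (ed A)) ∧
          ¬ Q (ed A \ P0.C).card (P0.dbl (ed A))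
      · rw [if_pos h8]
        unfold w
        by_cases h9 : Disjoint (ed A) s.K
        · have h10 : A ∈ fresh (sgp s) q Q := by
            unfold fresh
            rw [Finset.mem_filter]
            refine ⟨Finset.mem_univ _, h8.1, h9, h8.2.1, fun h11 => h8.2.2 ?_⟩
            have h12 : Q ((ed A \ s.C).card + 2) (s.pos.dbl (ed A) - 2) := h11
            have h13 := hD A
            exact hQ _ _ _ _ (hC A) (by omega) h12
          rw [if_pos h9, if_pos h10, one_div, mul_assoc]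
          exact le_rfl
        · rw [if_neg h9, mul_zero]
          exact hpos
      · rw [if_neg h8, zero_mul]
        exact hpos
    refine (Finset.sum_le_sum fun A _ => h7 A).trans ?_
    rw [← Finset.sum_filter, Finset.filter_mem_eq_inter, Finset.univ_inter]
    unfold fmass
    rw [Finset.mul_sum]
  linarith

end C0cr
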