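import Pool.Agent.W_c0q2_h38.All
import Pool.Agent.W_c0q2_h86.SMa

/-!
# MP_c0ce05_co, Q2: the theorems for the hand-ins
-/

set_option autoImplicit false

namespace C0cr

/-- the static theorem -/
theorem st : C0q2.S_St := C0q2.St_of mi C0q2.S_Ma_holds

theorem difference : ∃ C : ℝ, ∀ N : ℕ,
    |(C0ce.achievement N : ℝ) - (C0ce.avoidance N : ℝ)| ≤ C := by
  obtain ⟨C, h, _⟩ := bounded_of_St st
  exact ⟨C, h⟩

theorem upper : ∃ C : ℝ, ∃ N₀ : ℕ, ∀ N : ℕ, N₀ ≤ N →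
    (C0ce.achievement N : ℝ) ≤ 2 * Real.logb 2 N - 2 * Real.logb 2 (Real.logb 2 N) + C ∧
    (C0ce.avoidance N : ℝ) ≤ 2 * Real.logb 2 N - 2 * Real.logb 2 (Real.logb 2 N) + C := by
  obtain ⟨C, h⟩ := upper_of_staticQ (staticQ_of_St st)
  obtain ⟨N₀, hN₀⟩ := Filter.eventually_atTop.1 h
  exact ⟨C, N₀, fun N hN => hN₀ N hN⟩

end C0cr
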