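import Pool.Agent.W_c0q2_h38.Fin
import Pool.Agent.W_c0q2_h20.Form

/-!
# MP_c0ce05_co, Q2, from the interface `S_St`
-/

set_option autoImplicit false

namespace C0cr

open scoped Classical
open C0lo

theorem staticQ_of_St (h : C0q2.S_St) : StaticQ := by
  obtain ⟨N0, hN0⟩ := C0q2.St_form h
  refine ⟨10 ^ 15, 10 ^ 16, by norm_num, by norm_num, ?_⟩
  filter_upwards [Filter.eventually_ge_atTop N0] with N hN
  refine (hN0 N hN (Real.logb 2 (N : ℝ)) rfl (qq (10 ^ 16) N) rfl).mono le_rfl ?_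
  intro P hP Dl hDl hV D u hD hu
  have h1 := hP Dl hDl hV D u hD (by linarith)
  rw [show (575 / 1000 * (1 / 400) * (D : ℝ)) = 575 / 1000 * ((D : ℝ) / 400) by ring]
  exact h1

/-- **Q2** from the interface -/
theorem bounded_of_St (h : C0q2.S_St) : ∃ C : ℝ, (∀ N : ℕ,
    |(C0ce.achievement N : ℝ) - (C0ce.avoidance N : ℝ)| ≤ C) ∧
    ∃ N₀ : ℕ, ∀ N : ℕ, N₀ ≤ N →
      |(C0ce.achievement N : ℝ) -
        (2 * Real.logb 2 N - 2 * Real.logb 2 (Real.logb 2 N))| ≤ C ∧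
      |(C0ce.avoidance N : ℝ) -
        (2 * Real.logb 2 N - 2 * Real.logb 2 (Real.logb 2 N))| ≤ C :=
  bounded_of_staticQ (staticQ_of_St h)

end C0cr
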