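import Pool.Agent.W_c0up_h38.VWin
import Pool.Agent.W_c0up_h14.DefsG

/-!
# MP_c0ce05_co, Q2 (proofs row 518), section 0: entry rules

An entry rule is a monotone predicate `Q (unclaimed edges) (links)`. The `q`-sets which enter at a
position are in `fresh`.
-/

set_option autoImplicit false

namespace C0cr

open scoped Classical
open C0lo C0up

variable {N : ℕ}

/-- the number of links inside `A` -/
noncomputable def lnk (P : C0st.GP N) (A : Finset (Fin N)) : ℕ :=
  (P.db.filter (fun d => d.1 ∈ ed A ∧ d.2 ∈ ed A)).card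

/-- the alive `q`-sets for which `Q (unclaimed) (links)` holds and `Q (unclaimed + 2) (links - 2)`
does not -/
noncomputable def fresh (P : C0st.GP N) (q : ℕ) (Q : ℕ → ℕ → Prop) : Finset (Finset (Fin N)) :=
  Finset.univ.filter (fun A => A.card = q ∧ Disjoint (ed A) P.K ∧
    Q (ed A \ P.C).card (lnk P A) ∧ ¬ Q ((ed A \ P.C).card + 2) (lnk P A - 2))

/-- the mass which enters, without the constant -/
noncomputable def fmass (P : C0st.GP N) (q : ℕ) (Q : ℕ → ℕ → Prop) : ℝ :=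
  ∑ A ∈ fresh P q Q, ((4 : ℝ) / 3) ^ (ed A \ P.C).card * (1 / 2) ^ (ed A \ P.C).card

/-- monotone entry rules -/
def Mon (Q : ℕ → ℕ → Prop) : Prop := ∀ u u' D D', u' ≤ u → D ≤ D' → Q u D → Q u' D'

/-- general positions of the two libraries -/
theorem toGP_mass (P : GPos N) (X : Finset (Sym2 (Fin N))) :
    (C0st.GP.mass ⟨P.C, P.K, P.D⟩ X : ℝ) = P.mass X := rfl

theorem toGP_valid {P : GPos N} (hP : P.Valid) {Dl : ℕ}
    (hDl : 32 * (N : ℝ) ^ 4 ≤ 2 ^ Dl) : C0st.GP.Valid ⟨P.C, P.K, P.D⟩ Dl := by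
  refine ⟨hP.ndC, hP.ndK, hP.CK, hP.src, hP.tgt, hP.uniq, fun g => ?_, hP.acy⟩
  have h1 := (hP.ind g).trans hDl
  exact (pow_le_pow_iff_right₀ (by norm_num)).1 h1

/-- the position of a play after the turns `0, …, r` of Maker -/
noncomputable def gp (π : ℕ → Sym2 (Fin N)) (r : ℕ) : C0st.GP N :=
  ⟨(ofPlay π r).C, (ofPlay π r).K, (ofPlay π r).D⟩

theorem gp_mass (π : ℕ → Sym2 (Fin N)) (r : ℕ) (X : Finset (Sym2 (Fin N))) :
    (gp π r).mass X = (ofPlay π r).mass X := rfl

end C0cr
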