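import Pool.Agent.W_c0q2_h38.QD
import Pool.Agent.W_c0up_h38.Win

/-!
# The strategy of Breaker with an entry rule

A `q`-set enters with the coefficient `b * (4/3) ^ (unclaimed edges)` at the first time when the
entry rule holds.
-/

set_option autoImplicit false
set_option linter.unusedSectionVars false

namespace C0cr

open scoped Classical
open C0lo C0up

variable {N : ℕ} {ι : Type} [Fintype ι]

/-- the number of turns `0, …, r - 1` of Maker inside `A` -/
noncomputable def DD (π : ℕ → Sym2 (Fin N)) (r : ℕ) (A : Finset (Fin N)) : ℕ :=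
  ((Finset.range r).filter (fun s => π (4 * s) ∈ ed A ∧ π (4 * s + 1) ∈ ed A)).card

/-- the entering coefficients after the turn `r` of Maker -/
noncomputable def ent (ι : Type) (q : ℕ) (Q : ℕ → ℕ → Prop) (b : ℝ) (π : ℕ → Sym2 (Fin N))
    (r : ℕ) : ι ⊕ Finset (Fin N) → ℝ :=
  Sum.elim (fun _ => 0) (fun A => if A.card = q ∧ Q (U π (r + 1) A) (DD π (r + 1) A) ∧
    ¬ Q (U π r A) (DD π r A) then b * (4 / 3) ^ (U π (r + 1) A) else 0)

/-- the coefficients after `r` turns of Maker -/
noncomputable def co (Z : ι → Finset (Sym2 (Fin N))) (a : ι → ℝ) (q : ℕ) (Q : ℕ → ℕ → Prop)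
    (b : ℝ) (π : ℕ → Sym2 (Fin N)) : ℕ → (ι ⊕ Finset (Fin N) → ℝ)
  | 0 => Sum.elim a (fun _ => 0)
  | r + 1 => fun j => disc (ZZ Z) (co Z a q Q b π r) (π (4 * r)) (π (4 * r + 1)) j +
      ent ι q Q b π r j

variable {Z : ι → Finset (Sym2 (Fin N))} {a : ι → ℝ} {q : ℕ} {Q : ℕ → ℕ → Prop} {b : ℝ}
  {π : ℕ → Sym2 (Fin N)}

theorem ent_nonneg (hb : 0 ≤ b) (r : ℕ) (j : ι ⊕ Finset (Fin N)) : 0 ≤ ent ι q Q b π r j := by
  unfold ent
  rcases j with i | A
  · exact le_rfl
  · show 0 ≤ if A.card = q ∧ Q (U π (r + 1) A) (DD π (r + 1) A) ∧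
      ¬ Q (U π r A) (DD π r A) then b * (4 / 3) ^ (U π (r + 1) A) else 0
    split_ifs
    · positivity
    · exact le_rfl

theorem co_nonneg (ha : ∀ i, 0 ≤ a i) (hb : 0 ≤ b) (r : ℕ) (j : ι ⊕ Finset (Fin N)) :
    0 ≤ co Z a q Q b π r j := by
  induction r generalizing j with
  | zero =>
    rcases j with i | A
    · exact ha i
    · exact le_rfl
  | succ r ih => exact add_nonneg (disc_nonneg ih j) (ent_nonneg hb r j)

theorem DD_congr {π' : ℕ → Sym2 (Fin N)} {r : ℕ} (hp : ∀ i < 4 * r - 2, π i = π' i)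
    (A : Finset (Fin N)) : DD π r A = DD π' r A := by
  unfold DD
  congr 1
  refine Finset.filter_congr fun s hs => ?_
  rw [Finset.mem_range] at hs
  rw [hp (4 * s) (by omega), hp (4 * s + 1) (by omega)]

theorem co_congr {π' : ℕ → Sym2 (Fin N)} {r : ℕ} (hp : ∀ i < 4 * r - 2, π i = π' i) :
    co Z a q Q b π r = co Z a q Q b π' r := by
  induction r with
  | zero => rfl
  | succ r ih =>
    funext j
    have h1 : co Z a q Q b π r = co Z a q Q b π' r := ih fun i hi => hp i (by omega)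
    have h2 : ent ι q Q b π r j = ent ι q Q b π' r j := by
      unfold ent
      rcases j with i | A
      · rfl
      · show (if A.card = q ∧ Q (U π (r + 1) A) (DD π (r + 1) A) ∧
          ¬ Q (U π r A) (DD π r A) then b * (4 / 3) ^ (U π (r + 1) A) else 0) =
          (if A.card = q ∧ Q (U π' (r + 1) A) (DD π' (r + 1) A) ∧
          ¬ Q (U π' r A) (DD π' r A) then b * (4 / 3) ^ (U π' (r + 1) A) else 0)
        rw [U_congr hp A, U_congr (fun i hi => hp i (by omega)) A, DD_congr hp A,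
          DD_congr (fun i hi => hp i (by omega)) A]
    show disc (ZZ Z) (co Z a q Q b π r) (π (4 * r)) (π (4 * r + 1)) j + ent ι q Q b π r j =
      disc (ZZ Z) (co Z a q Q b π' r) (π' (4 * r)) (π' (4 * r + 1)) j + ent ι q Q b π' r j
    rw [h1, h2, hp (4 * r) (by omega), hp (4 * r + 1) (by omega)]

/-- the function maximised by Breaker -/
noncomputable def valB [NeZero N] (Z : ι → Finset (Sym2 (Fin N))) (a : ι → ℝ) (q : ℕ)
    (Q : ℕ → ℕ → Prop) (b : ℝ) (l : List (Sym2 (Fin N))) (e : Sym2 (Fin N)) : ℝ :=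
  tote (ZZ Z) (co Z a q Q b (sq l) (l.length / 4 + 1)) (Cs (sq l) l.length)
    (Ks (sq l) l.length) e

theorem valB_eq [NeZero N] (π : ℕ → Sym2 (Fin N)) {n r : ℕ} (hn : n / 4 = r) (hn2 : 2 ≤ n % 4)
    (e : Sym2 (Fin N)) :
    valB Z a q Q b ((List.range n).map π) e =
      tote (ZZ Z) (co Z a q Q b π (r + 1)) (Cs π n) (Ks π n) e := by
  have hl : ((List.range n).map π).length = n := by rw [List.length_map, List.length_range]
  unfold valB
  rw [hl, hn, Cs_congr (sq_map π n), Ks_congr (sq_map π n),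
    co_congr (r := r + 1) (π' := π) (fun i hi => sq_map π n i (by omega))]

/-- the potential after the turn `r` of Maker -/
noncomputable def Phi (Z : ι → Finset (Sym2 (Fin N))) (a : ι → ℝ) (q : ℕ) (Q : ℕ → ℕ → Prop)
    (b : ℝ) (π : ℕ → Sym2 (Fin N)) (r : ℕ) : ℝ :=
  tot (ZZ Z) (co Z a q Q b π (r + 1)) (Cs π (4 * r + 2)) (Ks π (4 * r + 2))

/-- the potential after the turn `r` of Maker, without the entering objects -/
noncomputable def Psi (Z : ι → Finset (Sym2 (Fin N))) (a : ι → ℝ) (q : ℕ) (Q : ℕ → ℕ → Prop)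
    (b : ℝ) (π : ℕ → Sym2 (Fin N)) (r : ℕ) : ℝ :=
  tot (ZZ Z) (disc (ZZ Z) (co Z a q Q b π r) (π (4 * r)) (π (4 * r + 1))) (Cs π (4 * r + 2))
    (Ks π (4 * r + 2))

/-- the entering mass -/
noncomputable def Ent (Z : ι → Finset (Sym2 (Fin N))) (q : ℕ) (Q : ℕ → ℕ → Prop) (b : ℝ)
    (π : ℕ → Sym2 (Fin N)) (r : ℕ) : ℝ :=
  tot (ZZ Z) (ent ι q Q b π r) (Cs π (4 * r + 2)) (Ks π (4 * r + 2))

theorem Phi_eq (r : ℕ) : Phi Z a q Q b π r = Psi Z a q Q b π r + Ent Z q Q b π r := by
  unfold Phi Psi Ent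
  rw [← tot_add]
  rfl

theorem co_inl (r : ℕ) (i : ι) :
    disc (ZZ Z) (co Z a q Q b π r) (π (4 * r)) (π (4 * r + 1)) (Sum.inl i) =
      a i * (3 / 4) ^ ((Finset.range (r + 1)).filter
        (fun s => π (4 * s) ∈ Z i ∧ π (4 * s + 1) ∈ Z i)).card := by
  have hr : ∀ r, co Z a q Q b π r (Sum.inl i) = a i * (3 / 4) ^ ((Finset.range r).filter
        (fun s => π (4 * s) ∈ Z i ∧ π (4 * s + 1) ∈ Z i)).card →
      disc (ZZ Z) (co Z a q Q b π r) (π (4 * r)) (π (4 * r + 1)) (Sum.inl i) =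
      a i * (3 / 4) ^ ((Finset.range (r + 1)).filter
        (fun s => π (4 * s) ∈ Z i ∧ π (4 * s + 1) ∈ Z i)).card := by
    intro r h1
    unfold disc
    rw [h1, Finset.range_add_one, Finset.filter_insert]
    show (if π (4 * r) ∈ Z i ∧ π (4 * r + 1) ∈ Z i then _ else _) = _
    split_ifs with h2
    · rw [Finset.card_insert_of_notMem, pow_succ, mul_assoc]
      intro h3
      exact absurd (Finset.mem_range.1 (Finset.mem_filter.1 h3).1) (lt_irrefl _)
    · rfl
  refine hr r ?_
  induction r with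
  | zero =>
    rw [Finset.range_zero, Finset.filter_empty, Finset.card_empty, pow_zero, mul_one]
    rfl
  | succ r ih =>
    rw [← hr r ih]
    show _ + (0 : ℝ) = _
    rw [add_zero]

section play

variable (h1 : ∀ i < N.choose 2, ¬ Sym2.IsDiag (π i))
  (h2 : ∀ i < N.choose 2, ∀ j < N.choose 2, π i = π j → i = j)

include h2

/-- the structure mass is at most the potential -/
theorem struct_le (ha : ∀ i, 0 ≤ a i) (hb : 0 ≤ b) {r : ℕ} (hr : 4 * r + 2 ≤ N.choose 2) :
    ∑ i, a i * (gp π r).mass (Z i) ≤ Psi Z a q Q b π r := by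
  unfold Psi tot
  rw [Fintype.sum_sum_type]
  have h3 : ∀ i, disc (ZZ Z) (co Z a q Q b π r) (π (4 * r)) (π (4 * r + 1)) (Sum.inl i) *
      w 2 (Cs π (4 * r + 2)) (Ks π (4 * r + 2)) (ZZ Z (Sum.inl i)) =
      a i * (gp π r).mass (Z i) := by
    intro i
    rw [co_inl, mul_assoc, gp_mass]
    congr 1
    unfold Pos.mass w
    rw [ofPlay_C, ofPlay_dbl h2 hr]
    show _ * (if Disjoint (Z i) (Ks π (4 * r + 2)) then _ else _) =
      if Disjoint (Z i) (Ks π (4 * r + 2)) then _ else _
    split_ifs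
    · rw [show ZZ Z (Sum.inl i) = Z i from rfl, one_div, mul_comm]
    · rw [mul_zero]
  rw [Finset.sum_congr rfl fun i _ => h3 i]
  have h4 : 0 ≤ ∑ A : Finset (Fin N),
      disc (ZZ Z) (co Z a q Q b π r) (π (4 * r)) (π (4 * r + 1)) (Sum.inr A) *
      w 2 (Cs π (4 * r + 2)) (Ks π (4 * r + 2)) (ZZ Z (Sum.inr A)) :=
    Finset.sum_nonneg fun A _ => mul_nonneg (disc_nonneg (co_nonneg ha hb r) _)
      (w_nonneg (by norm_num))
  linarith

/-- the turns inside `A` as links of the position -/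
theorem lnk_gp {r : ℕ} (hr : 4 * r + 2 ≤ N.choose 2) (A : Finset (Fin N)) :
    lnk (gp π r) A = DD π (r + 1) A := ofPlay_dbl h2 hr (ed A)

omit h2 in
theorem U_gp (r : ℕ) (A : Finset (Fin N)) : (ed A \ (gp π r).C).card = U π (r + 1) A := by
  show (ed A \ (ofPlay π r).C).card = _
  rw [ofPlay_C]
  unfold U
  rw [show 4 * (r + 1) - 2 = 4 * r + 2 by omega]

omit h2 in
theorem DD_step (r : ℕ) (A : Finset (Fin N)) : DD π (r + 1) A ≤ DD π r A + 1 := by
  unfold DD
  rw [Finset.range_add_one, Finset.filter_insert]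
  split_ifs
  · exact Finset.card_insert_le _ _
  · omega

/-- the entering mass is small -/
theorem Ent_le (hb : 0 ≤ b) (hQ : Mon Q) {r : ℕ} (hr : 4 * r + 2 ≤ N.choose 2) :
    Ent Z q Q b π r ≤ b * fmass (gp π r) q Q := by
  unfold Ent tot
  rw [Fintype.sum_sum_type]
  have h3 : ∑ i : ι, ent ι q Q b π r (Sum.inl i) *
      w 2 (Cs π (4 * r + 2)) (Ks π (4 * r + 2)) (ZZ Z (Sum.inl i)) = 0 :=
    Finset.sum_eq_zero fun i _ => by
      show (0 : ℝ) * _ = 0
      rw [zero_mul]
  rw [h3, zero_add]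
  have h4 : ∀ A : Finset (Fin N), ent ι q Q b π r (Sum.inr A) *
      w 2 (Cs π (4 * r + 2)) (Ks π (4 * r + 2)) (ZZ Z (Sum.inr A)) ≤
      if A ∈ fresh (gp π r) q Q then
        b * (((4 : ℝ) / 3) ^ (ed A \ (gp π r).C).card * (1 / 2) ^ (ed A \ (gp π r).C).card)
      else 0 := by
    intro A
    show (if A.card = q ∧ Q (U π (r + 1) A) (DD π (r + 1) A) ∧
      ¬ Q (U π r A) (DD π r A) then b * (4 / 3) ^ (U π (r + 1) A) else 0) *
      w 2 (Cs π (4 * r + 2)) (Ks π (4 * r + 2)) (ed A) ≤ _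
    have hpos : (0 : ℝ) ≤ if A ∈ fresh (gp π r) q Q then
        b * (((4 : ℝ) / 3) ^ (ed A \ (gp π r).C).card * (1 / 2) ^ (ed A \ (gp π r).C).card)
      else 0 := by
      split_ifs
      · positivity
      · exact le_rfl
    by_cases h5 : A.card = q ∧ Q (U π (r + 1) A) (DD π (r + 1) A) ∧ ¬ Q (U π r A) (DD π r A)
    · rw [if_pos h5]
      unfold w
      by_cases h6 : Disjoint (ed A) (Ks π (4 * r + 2))
      · have h7 : A ∈ fresh (gp π r) q Q := by
          unfold fresh
          rw [Finset.mem_filter, U_gp, lnk_gp h2 hr]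
          refine ⟨Finset.mem_univ _, h5.1, h6, h5.2.1, fun h8 => h5.2.2 ?_⟩
          have h9 := U_step (π := π) r A
          have h10 := DD_step (π := π) r A
          exact hQ _ _ _ _ h9 (by omega) h8
        rw [if_pos h6, if_pos h7, U_gp]
        have hU : U π (r + 1) A = (ed A \ Cs π (4 * r + 2)).card := by
          unfold U
          rw [show 4 * (r + 1) - 2 = 4 * r + 2 by omega]
        rw [← hU, one_div, mul_assoc]
      · rw [if_neg h6, mul_zero]
        exact hpos
    · rw [if_neg h5, zero_mul]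
      exact hpos
  refine (Finset.sum_le_sum fun A _ => h4 A).trans ?_
  rw [← Finset.sum_filter, Finset.filter_mem_eq_inter, Finset.univ_inter]
  unfold fmass
  rw [Finset.mul_sum]

/-- the coefficient of a `q`-set which has entered -/
theorem co_inr (ha : ∀ i, 0 ≤ a i) (hb : 0 ≤ b) {A : Finset (Fin N)} (hA : A.card = q)
    (hA0 : ¬ Q (U π 0 A) (DD π 0 A)) {r : ℕ}
    (hr : 4 * r - 2 ≤ N.choose 2) (hU : Q (U π r A) (DD π r A)) :
    b * (4 / 3) ^ (U π r A) ≤ co Z a q Q b π r (Sum.inr A) := by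
  induction r with
  | zero => exact absurd hU hA0
  | succ r ih =>
    have hc : co Z a q Q b π (r + 1) (Sum.inr A) =
      disc (ZZ Z) (co Z a q Q b π r) (π (4 * r)) (π (4 * r + 1)) (Sum.inr A) +
      (if A.card = q ∧ Q (U π (r + 1) A) (DD π (r + 1) A) ∧
        ¬ Q (U π r A) (DD π r A) then b * (4 / 3) ^ (U π (r + 1) A) else 0) := rfl
    by_cases h3 : Q (U π r A) (DD π r A)
    · have ih' := ih (by omega) h3
      rw [if_neg (fun h4 => h4.2.2 h3), add_zero] at hc
      rw [hc]
      by_cases h4 : π (4 * r) ∈ ed A ∧ π (4 * r + 1) ∈ ed A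
      · -- two edges fewer
        have h5 : U π (r + 1) A + 2 ≤ U π r A := by
          unfold U
          have h6 : (ed A \ Cs π (4 * (r + 1) - 2)) ∪ {π (4 * r), π (4 * r + 1)} ⊆
              ed A \ Cs π (4 * r - 2) := by
            intro e he
            rw [Finset.mem_union, Finset.mem_sdiff, Finset.mem_insert,
              Finset.mem_singleton] at he
            rw [Finset.mem_sdiff]
            rcases he with ⟨h7, h8⟩ | h7 | h7
            · refine ⟨h7, fun h9 => h8 ?_⟩
              obtain ⟨i, hi, hi2, hie⟩ := mem_Cs.1 h9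
              exact mem_Cs.2 ⟨i, by omega, hi2, hie⟩
            · refine ⟨h7 ▸ h4.1, fun h9 => ?_⟩
              obtain ⟨i, hi, hi2, hie⟩ := mem_Cs.1 h9
              have := h2 i (by omega) (4 * r) (by omega) (hie.trans h7)
              omega
            · refine ⟨h7 ▸ h4.2, fun h9 => ?_⟩
              obtain ⟨i, hi, hi2, hie⟩ := mem_Cs.1 h9
              have := h2 i (by omega) (4 * r + 1) (by omega) (hie.trans h7)
              omega
          refine le_trans ?_ (Finset.card_le_card h6)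
          rw [Finset.card_union_of_disjoint, Finset.card_pair]
          · intro h7
            have := h2 (4 * r) (by omega) (4 * r + 1) (by omega) h7
            omega
          · rw [Finset.disjoint_left]
            intro e he he2
            rw [Finset.mem_sdiff] at he
            rw [Finset.mem_insert, Finset.mem_singleton] at he2
            apply he.2
            rcases he2 with h7 | h7
            · exact mem_Cs.2 ⟨4 * r, by omega, by omega, h7.symm⟩
            · exact mem_Cs.2 ⟨4 * r + 1, by omega, by omega, h7.symm⟩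
        unfold disc
        show _ ≤ if π (4 * r) ∈ ed A ∧ π (4 * r + 1) ∈ ed A then _ else _
        rw [if_pos h4]
        have h6 : ((4 : ℝ) / 3) ^ (U π (r + 1) A + 1) ≤ (4 / 3) ^ (U π r A) :=
          pow_le_pow_right₀ (by norm_num) (by omega)
        rw [pow_succ] at h6
        have h7 : b * ((4 / 3) ^ (U π (r + 1) A) * (4 / 3)) ≤ b * (4 / 3) ^ (U π r A) :=
          mul_le_mul_of_nonneg_left h6 hb
        linarith
      · have h5 : U π (r + 1) A ≤ U π r A := by
          unfold U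
          refine Finset.card_le_card (Finset.sdiff_subset_sdiff le_rfl ?_)
          intro e he
          obtain ⟨i, hi, hi2, hie⟩ := mem_Cs.1 he
          exact mem_Cs.2 ⟨i, by omega, hi2, hie⟩
        unfold disc
        show _ ≤ if π (4 * r) ∈ ed A ∧ π (4 * r + 1) ∈ ed A then _ else _
        rw [if_neg h4]
        refine le_trans ?_ ih'
        exact mul_le_mul_of_nonneg_left (pow_le_pow_right₀ (by norm_num) h5) hb
    · rw [hc, if_pos ⟨hA, hU, h3⟩]
      have h5 : 0 ≤ disc (ZZ Z) (co Z a q Q b π r) (π (4 * r)) (π (4 * r + 1)) (Sum.inr A) :=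
        disc_nonneg (co_nonneg ha hb r) _
      linarith

end play

end C0cr
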