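import Pool.Agent.W_c0q2_h38.QD

/-!
# Avoider's strategy with an entry rule: the states along a play
-/

set_option autoImplicit false
set_option linter.unusedSectionVars false

namespace C0cr

open scoped Classical
open C0lo C0up

variable {N : ℕ} {ι : Type} [Fintype ι] {Z : ι → Finset (Sym2 (Fin N))} {a : ι → ℝ} {q : ℕ}
  {Q : ℕ → ℕ → Prop} {b τ : ℝ} {π : ℕ → Sym2 (Fin N)}

/-- the late objects enter: `P0` = position at the previous entering time -/
noncomputable def enter (q : ℕ) (Q : ℕ → ℕ → Prop) (b : ℝ) (P0 : GPos N)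
    (s : St N (ι ⊕ Finset (Fin N))) : St N (ι ⊕ Finset (Fin N)) where
  c := fun j => s.c j + Sum.elim (fun _ : ι => (0 : ℝ)) (fun A =>
    if A.card = q ∧ Q (ed A \ s.C).card (s.pos.dbl (ed A)) ∧
      ¬ Q (ed A \ P0.C).card (P0.dbl (ed A)) then b * (4 / 3) ^ (ed A \ s.C).card else 0) j
  C := s.C
  K := s.K
  bank := s.bank
  ti := s.ti
  tr := s.tr
  p := s.p

/-- the state after `r` rounds (only the edges of Forcer are read from the play) -/
noncomputable def SS [NeZero N] (Z : ι → Finset (Sym2 (Fin N))) (a : ι → ℝ) (q : ℕ)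
    (Q : ℕ → ℕ → Prop) (b τ : ℝ)
    (π : ℕ → Sym2 (Fin N)) : ℕ → St N (ι ⊕ Finset (Fin N))
  | 0 => init a
  | r + 1 => enter q Q b (SS Z a q Q b τ π r).pos
      (round (ZZ Z) τ (SS Z a q Q b τ π r) (π (4 * r + 2)) (π (4 * r + 3)))

theorem SS_congr [NeZero N] {π' : ℕ → Sym2 (Fin N)} {r : ℕ} (hp : ∀ i < 4 * r, π i = π' i) :
    SS Z a q Q b τ π r = SS Z a q Q b τ π' r := by
  induction r with
  | zero => rfl
  | succ r ih =>
    have h1 : SS Z a q Q b τ π r = SS Z a q Q b τ π' r := ih fun i hi => hp i (by omega)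
    show enter q Q b (SS Z a q Q b τ π r).pos
      (round (ZZ Z) τ (SS Z a q Q b τ π r) (π (4 * r + 2)) (π (4 * r + 3))) =
      enter q Q b (SS Z a q Q b τ π' r).pos
      (round (ZZ Z) τ (SS Z a q Q b τ π' r) (π' (4 * r + 2)) (π' (4 * r + 3)))
    rw [h1, hp (4 * r + 2) (by omega), hp (4 * r + 3) (by omega)]

/-- Avoider's strategy -/
noncomputable def sA [NeZero N] (Z : ι → Finset (Sym2 (Fin N))) (a : ι → ℝ) (q : ℕ)
    (Q : ℕ → ℕ → Prop) (b τ : ℝ)
    (l : List (Sym2 (Fin N))) : Sym2 (Fin N) :=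
  if l.length % 4 = 0 then mv (ZZ Z) τ (SS Z a q Q b τ (sq l) (l.length / 4))
  else mv (ZZ Z) τ (act (ZZ Z) τ (SS Z a q Q b τ (sq l) (l.length / 4)))

/-- the function maximised by Avoider -/
noncomputable def vA [NeZero N] (Z : ι → Finset (Sym2 (Fin N))) (a : ι → ℝ) (q : ℕ)
    (Q : ℕ → ℕ → Prop) (b τ : ℝ)
    (l : List (Sym2 (Fin N))) (e : Sym2 (Fin N)) : ℝ :=
  if e = sA Z a q Q b τ l then 1 else 0

theorem sA_zero [NeZero N] (π : ℕ → Sym2 (Fin N)) (r : ℕ) :
    sA Z a q Q b τ ((List.range (4 * r)).map π) = mv (ZZ Z) τ (SS Z a q Q b τ π r) := by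
  have hl : ((List.range (4 * r)).map π).length = 4 * r := by
    rw [List.length_map, List.length_range]
  unfold sA
  rw [hl, if_pos (by omega), show 4 * r / 4 = r by omega,
    SS_congr (π' := π) (fun i hi => sq_map π (4 * r) i hi)]

theorem sA_one [NeZero N] (π : ℕ → Sym2 (Fin N)) (r : ℕ) :
    sA Z a q Q b τ ((List.range (4 * r + 1)).map π) =
      mv (ZZ Z) τ (act (ZZ Z) τ (SS Z a q Q b τ π r)) := by
  have hl : ((List.range (4 * r + 1)).map π).length = 4 * r + 1 := by
    rw [List.length_map, List.length_range]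
  unfold sA
  rw [hl, if_neg (by omega), show (4 * r + 1) / 4 = r by omega,
    SS_congr (π' := π) (fun i hi => sq_map π (4 * r + 1) i (by omega))]

/-- if the edge of the strategy is free, it is played -/
theorem eq_of_max [NeZero N] {l : List (Sym2 (Fin N))} {e : Sym2 (Fin N)}
    (hmax : vA Z a q Q b τ l (sA Z a q Q b τ l) ≤ vA Z a q Q b τ l e) :
    e = sA Z a q Q b τ l := by
  by_contra hne
  unfold vA at hmax
  rw [if_pos rfl, if_neg hne] at hmax
  norm_num at hmax

end C0cr
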